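import Mathlib
import Pool.Agent.Helper61.TransvNeg

set_option autoImplicit false

/-!
Approachability excludes stationary almost disjoint families (for problem `MP_23241f_lc`).
-/

open Cardinal Ordinal Set Order

universe u

namespace Pool.Agent.Helper75.Trv

open Pool.Agent.Helper61

/-- Shelah's approachability property of `κ`, restricted to points of cofinality `l⁺`: there are
sets `a α ⊆ κ` (`α < κ`) such that for club many `δ < κ`, if `δ` has cofinality `l⁺`, then there is
a cofinal `D ⊆ δ` of order type `l⁺`, all of whose proper initial segments are among the sets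
`a α`, `α < δ`. -/
def Approachable (κ l : Cardinal.{u}) : Prop :=
  ∃ (a : κ.ord.ToType → Set κ.ord.ToType) (E : Set κ.ord.ToType), IsClub E ∧
    ∀ δ ∈ E, Order.cof (Iio δ) = succ l → ∃ D : Set κ.ord.ToType, D ⊆ Iio δ ∧
      (∀ x < δ, ∃ y ∈ D, x ≤ y) ∧ Ordinal.type (α := D) (· < ·) = (succ l).ord ∧
      ∀ x < δ, ∃ α < δ, D ∩ Iio x = a α

theorem not_sad_of_approachable (gch : GCH.{u}) (e l : Cardinal.{u}) (hl : ℵ₀ ≤ l)
    (hle : l < e) (hcof : l.ord.cof = e.ord.cof) (hap : Approachable (succ e) l) :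
    ¬ StationaryAlmostDisjoint (succ e) l := by
  classical
  have he : ℵ₀ ≤ e := hl.trans hle.le
  have hlim : IsSuccLimit e := isSuccLimit_of_cof e l hl hle hcof
  have hreg : (succ e).IsRegular := Cardinal.isRegular_succ he
  have hregl : (succ l).IsRegular := Cardinal.isRegular_succ hl
  have hunc : ℵ₀ < succ e := lt_of_le_of_lt he (Order.lt_succ e)
  let K := (succ e).ord.ToType
  let H := e.ord.ToType
  have hK : #K = succ e := Cardinal.mk_ord_toType _
  have hH : #H = e := Cardinal.mk_ord_toType _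
  have hseg : ∀ x : K, #(Iio x) ≤ e := fun x => Order.lt_succ_iff.mp (mk_Iio_lt' x)
  have hcofK : Order.cof K ≠ ℵ₀ := by
    rw [cof_toType_eq hreg]
    exact hunc.ne'
  obtain ⟨a, E, hE, hap⟩ := hap
  rintro ⟨S, C, hS, hC, hCC⟩
  obtain ⟨s, hs, hsc⟩ := Order.exists_cof_eq H
  have hsl : #s ≤ l := by
    rw [hsc, Ordinal.cof_toType, ← hcof]
    exact Ordinal.cof_ord_le l
  -- embeddings of the initial segments
  have hg : ∀ β : K, Nonempty (Iio β ↪ H) := by
    intro β
    rw [← Cardinal.le_def, hH]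
    exact hseg β
  let g : ∀ β : K, Iio β ↪ H := fun β => (hg β).some
  let Kb : K → H → Set K := fun β i => {x | ∃ h : x < β, g β ⟨x, h⟩ < i}
  have hKb : ∀ β i, #(Kb β i) ≤ #(Iio i) := by
    intro β i
    refine Cardinal.mk_le_of_injective
      (f := fun x : Kb β i => (⟨g β ⟨x.1, x.2.choose⟩, x.2.choose_spec⟩ : Iio i)) ?_
    intro x y hxy
    have h1 : g β ⟨x.1, x.2.choose⟩ = g β ⟨y.1, y.2.choose⟩ := congrArg Subtype.val hxy
    have h2 := congrArg Subtype.val ((g β).injective h1)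
    exact Subtype.ext h2
  have hKbmem : ∀ β x, x < β → ∃ i ∈ s, x ∈ Kb β i := by
    intro β x hx
    obtain ⟨y, hy⟩ := exists_gt_toType he (g β ⟨x, hx⟩)
    obtain ⟨i, hi, hyi⟩ := hs y
    exact ⟨i, hi, hx, lt_of_lt_of_le hy hyi⟩
  let M : K → s → Bool → Set K := fun α i b =>
    if b then Kb α i.1 else if #(a α) ≤ l then ⋃ c : a α, Kb c.1 i.1 else ∅
  have hM : ∀ α i b, #(M α i b) < e := by
    intro α i b
    cases b with
    | true =>
      show #(Kb α i.1) < e
      exact lt_of_le_of_lt (hKb α i.1) (mk_Iio_lt' i.1)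
    | false =>
      by_cases h : #(a α) ≤ l
      · have h1 : M α i false = ⋃ c : a α, Kb c.1 i.1 := by
          simp only [M, Bool.false_eq_true, if_false, if_pos h]
        rw [h1]
        calc #(⋃ c : a α, Kb c.1 i.1) ≤ Cardinal.sum (fun c : a α => #(Kb c.1 i.1)) :=
              mk_iUnion_le_sum_mk
          _ ≤ Cardinal.sum (fun _ : a α => #(Iio i.1)) :=
              Cardinal.sum_le_sum _ _ (fun c => hKb c.1 i.1)
          _ = #(a α) * #(Iio i.1) := by rw [Cardinal.sum_const']
          _ < e := Cardinal.mul_lt_of_lt he (lt_of_le_of_lt h hle) (mk_Iio_lt' i.1)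
      · have h1 : M α i false = ∅ := by
          simp only [M, Bool.false_eq_true, if_false, if_neg h]
        rw [h1, Cardinal.mk_eq_zero]
        exact lt_of_lt_of_le Cardinal.aleph0_pos he
  let B : K → Set K := fun α => {δ | δ ∈ S ∧ ∃ i b, l ≤ #(M α i b ∩ C δ : Set K)}
  have hB : ∀ α, #(B α) ≤ e := by
    intro α
    have h1 : ∀ p : s × Bool, #{δ : S | l ≤ #(M α p.1 p.2 ∩ C δ.1 : Set K)} ≤ e := by
      intro p
      refine (count_le (fun δ : S => C δ.1) l (fun x y hxy => hCC x.1 x.2 y.1 y.2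
        (fun h => hxy (Subtype.ext h))) (M α p.1 p.2)).trans ?_
      refine (pow_le_succ gch _ l hl).trans ?_
      exact (hlim.succ_lt (max_lt (hM _ _ _) hle)).le
    have h2 : B α ⊆ ⋃ p : s × Bool, Subtype.val '' {δ : S | l ≤ #(M α p.1 p.2 ∩ C δ.1 : Set K)} := by
      rintro δ ⟨hδ, i, b, hib⟩
      exact Set.mem_iUnion.mpr ⟨(i, b), ⟨δ, hδ⟩, hib, rfl⟩
    calc #(B α) ≤ #(⋃ p : s × Bool, Subtype.val ''
            {δ : S | l ≤ #(M α p.1 p.2 ∩ C δ.1 : Set K)}) := Cardinal.mk_le_mk_of_subset h2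
      _ ≤ Cardinal.sum (fun p : s × Bool => #(Subtype.val ''
            {δ : S | l ≤ #(M α p.1 p.2 ∩ C δ.1 : Set K)})) := mk_iUnion_le_sum_mk
      _ ≤ Cardinal.sum (fun _ : s × Bool => e) :=
          Cardinal.sum_le_sum _ _ (fun p => Cardinal.mk_image_le.trans (h1 p))
      _ = #(s × Bool) * e := by rw [Cardinal.sum_const']
      _ ≤ e * e := by
          apply mul_le_mul_left
          rw [Cardinal.mk_prod, Cardinal.lift_uzero]
          refine Cardinal.mul_le_of_le he (hsl.trans hle.le) ?_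
          refine le_trans ?_ he
          rw [Cardinal.lift_le_aleph0]
          exact Cardinal.mk_le_aleph0
      _ = e := Cardinal.mul_eq_self he
  have hbd : ∀ α, ∃ x, ∀ δ ∈ B α, δ < x := fun α =>
    exists_bound hreg (B α) (lt_of_le_of_lt (hB α) (Order.lt_succ e))
  choose bd hbd using hbd
  obtain ⟨δ, hδS, hδE, hδZ⟩ := hS (hE.inter hcofK (isClub_closure hreg hunc bd))
  obtain ⟨hCsub, hCcard⟩ := hC δ hδS
  -- it suffices to put `δ` in some `B α`, `α < δ`
  suffices hgoal : ∃ α < δ, δ ∈ B α by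
    obtain ⟨α, hα, hδα⟩ := hgoal
    exact lt_irrefl _ ((hbd α δ hδα).trans (hδZ α hα))
  by_cases hcase : ∃ β < δ, l < #(C δ ∩ Iio β : Set K)
  · obtain ⟨β, hβ, hβl⟩ := hcase
    refine ⟨β, hβ, hδS, ?_⟩
    by_contra hcon
    push Not at hcon
    have h1 : C δ ∩ Iio β ⊆ ⋃ i : s, (Kb β i.1 ∩ C δ) := by
      rintro x ⟨hx1, hx2⟩
      obtain ⟨i, hi, hxi⟩ := hKbmem β x hx2
      exact Set.mem_iUnion.mpr ⟨⟨i, hi⟩, hxi, hx1⟩
    have h2 : #(C δ ∩ Iio β : Set K) ≤ l := by
      calc #(C δ ∩ Iio β : Set K) ≤ #(⋃ i : s, (Kb β i.1 ∩ C δ)) := Cardinal.mk_le_mk_of_subset h1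
        _ ≤ Cardinal.sum (fun i : s => #(Kb β i.1 ∩ C δ : Set K)) := mk_iUnion_le_sum_mk
        _ ≤ Cardinal.sum (fun _ : s => l) :=
            Cardinal.sum_le_sum _ _ (fun i => (hcon i true).le)
        _ = #s * l := by rw [Cardinal.sum_const']
        _ ≤ l * l := mul_le_mul_left hsl l
        _ = l := Cardinal.mul_eq_self hl
    exact absurd hβl (not_lt.mpr h2)
  · push Not at hcase
    -- `C δ` is cofinal of type `l⁺`
    have hCcof : ∀ x < δ, ∃ y ∈ C δ, x < y := by
      intro x hx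
      by_contra hcon
      push Not at hcon
      have h1 : C δ ⊆ insert x (C δ ∩ Iio x) := by
        intro y hy
        rcases lt_or_eq_of_le (hcon y hy) with h | h
        · right
          exact ⟨hy, h⟩
        · left
          exact h
      have h2 : #(C δ) ≤ l := by
        calc #(C δ) ≤ #(insert x (C δ ∩ Iio x) : Set K) := Cardinal.mk_le_mk_of_subset h1
          _ ≤ #(C δ ∩ Iio x : Set K) + 1 := Cardinal.mk_insert_le
          _ ≤ l + l := add_le_add (hcase x hx) (Cardinal.one_le_aleph0.trans hl)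
          _ = l := Cardinal.add_eq_self hl
      rw [hCcard] at h2
      exact absurd (Order.lt_succ l) (not_lt.mpr h2)
    have hcofδ : Order.cof (Iio δ) = succ l := by
      let R : Set (Iio δ) := {x | x.1 ∈ C δ}
      have hRcof : IsCofinal R := by
        intro x
        obtain ⟨y, hy, hxy⟩ := hCcof x.1 x.2
        exact ⟨⟨y, hCsub hy⟩, hy, hxy.le⟩
      have hRcard : #R = succ l := by
        rw [← hCcard]
        refine Cardinal.mk_congr
          { toFun := fun x => ⟨x.1.1, x.2⟩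
            invFun := fun x => ⟨⟨x.1, hCsub x.2⟩, x.2⟩
            left_inv := fun x => rfl
            right_inv := fun x => rfl }
      have h7 : Order.cof R = Order.cof (Iio δ) := Order.cof_eq_of_isCofinal hRcof
      have h8 : Ordinal.type (α := R) (· < ·) = (succ l).ord := by
        rw [← hRcard]
        apply type_eq_of_initial
        intro x
        rw [hRcard, Order.lt_succ_iff]
        refine le_trans ?_ (hcase x.1.1 x.1.2)
        refine Cardinal.mk_le_of_injective
          (f := fun c : Iio x => (⟨c.1.1.1, c.1.2, c.2⟩ : (C δ ∩ Iio x.1.1 : Set K))) ?_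
        intro c d hcd
        have h9 : c.1.1.1 = d.1.1.1 :=
          congrArg (fun t : (C δ ∩ Iio x.1.1 : Set K) => t.1) hcd
        exact Subtype.ext (Subtype.ext (Subtype.ext h9))
      rw [← h7, ← Ordinal.cof_type, h8, hregl.cof_ord]
    obtain ⟨D, hDsub, hDcof, hDtype, hDa⟩ := hap δ hδE hcofδ
    have hc : ∀ y : C δ, ∃ c ∈ D, y.1 < c := by
      intro y
      obtain ⟨z, hz, hyz⟩ := hCcof y.1 (hCsub y.2)
      obtain ⟨c, hc, hzc⟩ := hDcof z (hCsub hz)
      exact ⟨c, hc, lt_of_lt_of_le hyz hzc⟩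
    choose c hcD hcl using hc
    have hi : ∀ y : C δ, ∃ i : s, y.1 ∈ Kb (c y) i.1 := by
      intro y
      obtain ⟨i, hi, hyi⟩ := hKbmem (c y) y.1 (hcl y)
      exact ⟨⟨i, hi⟩, hyi⟩
    choose ι hι using hi
    have hbig : ∃ i : s, l < #{y : C δ | ι y = i} := by
      by_contra hcon
      push Not at hcon
      have h1 : (Set.univ : Set (C δ)) ⊆ ⋃ i : s, {y : C δ | ι y = i} := by
        intro y _
        exact Set.mem_iUnion.mpr ⟨ι y, rfl⟩
      have h2 : #(C δ) ≤ l := by
        calc #(C δ) = #(Set.univ : Set (C δ)) := Cardinal.mk_univ.symm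
          _ ≤ #(⋃ i : s, {y : C δ | ι y = i}) := Cardinal.mk_le_mk_of_subset h1
          _ ≤ Cardinal.sum (fun i : s => #{y : C δ | ι y = i}) := mk_iUnion_le_sum_mk
          _ ≤ Cardinal.sum (fun _ : s => l) := Cardinal.sum_le_sum _ _ hcon
          _ = #s * l := by rw [Cardinal.sum_const']
          _ ≤ l * l := mul_le_mul_left hsl l
          _ = l := Cardinal.mul_eq_self hl
      rw [hCcard] at h2
      exact absurd (Order.lt_succ l) (not_lt.mpr h2)
    obtain ⟨i, hi⟩ := hbig
    obtain ⟨Y, hY1, hY2⟩ := Cardinal.le_mk_iff_exists_subset.mp hi.le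
    -- a bound for the `c y`
    have hx : ∃ x < δ, ∀ y ∈ Y, c y < x := by
      have h1 : ¬ IsCofinal ((fun y => (⟨c y, hDsub (hcD y)⟩ : Iio δ)) '' Y) := by
        intro hcon
        have h2 := Order.cof_le hcon
        rw [hcofδ] at h2
        have h3 : succ l ≤ l := h2.trans (Cardinal.mk_image_le.trans hY2.le)
        exact absurd (Order.lt_succ l) (not_lt.mpr h3)
      rw [not_isCofinal_iff] at h1
      obtain ⟨x, hx⟩ := h1
      refine ⟨x.1, x.2, ?_⟩
      intro y hy
      exact hx _ ⟨y, hy, rfl⟩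
    obtain ⟨x, hxδ, hx⟩ := hx
    obtain ⟨α, hα, hαx⟩ := hDa x hxδ
    have haα : #(a α) ≤ l := by
      rw [← hαx]
      obtain ⟨d, hd, hxd⟩ := hDcof x hxδ
      have h1 : #(Iio (⟨d, hd⟩ : D)) < succ l := by
        have h3 : (#D).ord = Ordinal.type (α := D) (· < ·) := by
          rw [hDtype]
          have h4 := congrArg Ordinal.card hDtype
          rw [Cardinal.card_ord] at h4
          have h5 : #D = succ l := h4
          rw [h5]
        have h2 := Cardinal.mk_Iio_lt (⟨d, hd⟩ : D) h3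
        have h4 := congrArg Ordinal.card hDtype
        rw [Cardinal.card_ord] at h4
        have h5 : #D = succ l := h4
        rwa [h5] at h2
      rw [Order.lt_succ_iff] at h1
      refine le_trans ?_ h1
      refine Cardinal.mk_le_of_injective
        (f := fun z : (D ∩ Iio x : Set K) => (⟨⟨z.1, z.2.1⟩, lt_of_lt_of_le z.2.2 hxd⟩ :
          Iio (⟨d, hd⟩ : D))) ?_
      intro z w hzw
      have h6 : z.1 = w.1 := congrArg (fun t : Iio (⟨d, hd⟩ : D) => t.1.1) hzw
      exact Subtype.ext h6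
    refine ⟨α, hα, hδS, i, false, ?_⟩
    have hMα : M α i false = ⋃ c : a α, Kb c.1 i.1 := by
      simp only [M, Bool.false_eq_true, if_false, if_pos haα]
    rw [hMα, ← hY2]
    refine Cardinal.mk_le_of_injective
      (f := fun y : Y => (⟨y.1.1, ?_, y.1.2⟩ : ((⋃ c : a α, Kb c.1 i.1) ∩ C δ : Set K))) ?_
    · have h1 : c y.1 ∈ a α := by
        rw [← hαx]
        exact ⟨hcD y.1, hx y.1 y.2⟩
      have h2 : ι y.1 = i := hY1 y.2
      refine Set.mem_iUnion.mpr ⟨⟨c y.1, h1⟩, ?_⟩
      have h3 := hι y.1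
      rw [h2] at h3
      exact h3
    · intro y z hyz
      have h4 : y.1.1 = z.1.1 :=
        congrArg (fun t : ((⋃ c : a α, Kb c.1 i.1) ∩ C δ : Set K) => t.1) hyz
      exact Subtype.ext (Subtype.ext h4)

end Pool.Agent.Helper75.Trv
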