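import Mathlib
import Pool.Agent.Helper61.TransvDefs
import Pool.Agent.Helper61.TransvBasic
import Pool.Agent.Helper61.TransvPos
import Pool.Agent.Helper61.TransvNeg

set_option autoImplicit false

/-!
(Proof by helper61.) `l⁺`-transversals of families of `κ` sets of power `κ` with `δ(𝒜) ≤ l`, under GCH
(problem MP_23241f_lc): a complete characterisation of the pairs `(κ, l)` for which the
transversals always exist, in terms of stationary almost disjoint families.
-/

open Cardinal Ordinal Set Order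

universe u

namespace Pool.Agent.Helper75.Trv.Char

open Pool.Agent.Helper61

section Aux

lemma inter_lt_of_degree {X : Type u} (𝒜 : Set (Set X)) (l : Cardinal.{u})
    (h : disjunctionDegree 𝒜 ≤ l) (A : Set X) (hA : A ∈ 𝒜) (B : Set X) (hB : B ∈ 𝒜)
    (hne : A ≠ B) : #(A ∩ B : Set X) < l := by
  have h1 : {d : Cardinal.{u} | ∀ A ∈ 𝒜, ∀ B ∈ 𝒜, A ≠ B → #(A ∩ B : Set X) < d}.Nonempty := by
    refine ⟨succ #X, ?_⟩
    intro A _ B _ _
    exact Order.lt_succ_of_le (Cardinal.mk_set_le _)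
  have h2 := csInf_mem h1
  exact lt_of_lt_of_le (h2 A hA B hB hne) h

/-- Reduction to indexed families. -/
lemma hasTransversals_of_indexed (κ l : Cardinal.{u})
    (h : ∀ (X : Type u) (A : κ.ord.ToType → Set X), (∀ b, #(A b) = κ) →
      (∀ a b, a ≠ b → #(A a ∩ A b : Set X) < l) →
      ∃ T : Set X, ∀ b, (T ∩ A b).Nonempty ∧ #(T ∩ A b : Set X) ≤ l) :
    HasTransversals κ l := by
  intro X 𝒜 h1 h2 h3
  obtain ⟨φ⟩ : Nonempty (κ.ord.ToType ≃ 𝒜) := by
    rw [← Cardinal.eq, Cardinal.mk_ord_toType, h1]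
  obtain ⟨T, hT⟩ := h X (fun b => (φ b).1) (fun b => h2 _ (φ b).2) (by
    intro a b hab
    apply inter_lt_of_degree 𝒜 l h3 _ (φ a).2 _ (φ b).2
    intro hcon
    exact hab (φ.injective (Subtype.ext hcon)))
  refine ⟨T, ?_⟩
  intro A hA
  have h4 := hT (φ.symm ⟨A, hA⟩)
  simp only [Equiv.apply_symm_apply] at h4
  exact ⟨h4.1, Order.lt_succ_of_le h4.2⟩

/-- The greedy cases. -/
lemma hasTransversals_of_count (κ l : Cardinal.{u}) (hκ : ℵ₀ ≤ κ) (hl : 1 ≤ l) (hlκ : l < κ)
    (H : ∀ (X : Type u) (A : κ.ord.ToType → Set X),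
      (∀ a b, a ≠ b → #(A a ∩ A b : Set X) < l) →
      ∀ T : Set X, #T < κ → #{b | l ≤ #(T ∩ A b : Set X)} < κ) :
    HasTransversals κ l := by
  apply hasTransversals_of_indexed
  intro X A hA1 hA2
  obtain ⟨T, _, hT⟩ := greedy_lemma A κ l hκ hl hlκ (fun b => mk_Iio_lt' b)
    (fun b => (hA1 b).ge) hA2 (H X A hA2)
  exact ⟨T, hT⟩

/-- The case `κ = l⁺`. -/
lemma hasTransversals_succ (l : Cardinal.{u}) (hl : ℵ₀ ≤ l) : HasTransversals (succ l) l := by
  classical
  apply hasTransversals_of_indexed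
  intro X A hA1 hA2
  have hseg : ∀ x : (succ l).ord.ToType, #(Iio x) ≤ l :=
    fun x => Order.lt_succ_iff.mp (mk_Iio_lt' x)
  have hex : ∀ b, ∃ x, x ∈ A b ∧ ∀ a < b, x ∉ A a := by
    intro b
    by_contra hcon
    push Not at hcon
    have h1 : A b ⊆ ⋃ a : Iio b, (A b ∩ A a.1) := by
      intro x hx
      obtain ⟨a, hab, hxa⟩ := hcon x hx
      exact Set.mem_iUnion.mpr ⟨⟨a, hab⟩, hx, hxa⟩
    have h2 : #(A b) ≤ l := by
      calc #(A b) ≤ #(⋃ a : Iio b, (A b ∩ A a.1)) := Cardinal.mk_le_mk_of_subset h1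
        _ ≤ Cardinal.sum (fun a : Iio b => #(A b ∩ A a.1 : Set X)) := mk_iUnion_le_sum_mk
        _ ≤ Cardinal.sum (fun _ : Iio b => l) :=
            Cardinal.sum_le_sum _ _ (fun a => (hA2 b a.1 (ne_of_gt a.2)).le)
        _ = #(Iio b) * l := by rw [Cardinal.sum_const']
        _ ≤ l * l := mul_le_mul_left (hseg b) l
        _ = l := Cardinal.mul_eq_self hl
    rw [hA1 b] at h2
    exact absurd (Order.lt_succ l) (not_lt.mpr h2)
  choose t ht1 ht2 using hex
  refine ⟨Set.range t, ?_⟩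
  intro b
  refine ⟨⟨t b, ⟨b, rfl⟩, ht1 b⟩, ?_⟩
  have h3 : Set.range t ∩ A b ⊆ t '' (insert b (Iio b)) := by
    rintro x ⟨⟨a, rfl⟩, hx⟩
    refine ⟨a, ?_, rfl⟩
    rcases lt_trichotomy a b with h | h | h
    · right
      exact h
    · left
      exact h
    · exact absurd hx (ht2 a b h)
  calc #(Set.range t ∩ A b : Set X) ≤ #(t '' (insert b (Iio b))) :=
        Cardinal.mk_le_mk_of_subset h3
    _ ≤ #(insert b (Iio b) : Set _) := Cardinal.mk_image_le
    _ ≤ #(Iio b) + 1 := Cardinal.mk_insert_le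
    _ ≤ l + l := add_le_add (hseg b) (Cardinal.one_le_aleph0.trans hl)
    _ = l := Cardinal.add_eq_self hl

/-- The critical case, without stationary almost disjoint family. -/
lemma hasTransversals_of_not_sad (gch : GCH.{u}) (e l : Cardinal.{u}) (hl : ℵ₀ ≤ l)
    (hle : l < e) (helim : IsSuccPrelimit e)
    (hsad : ¬ StationaryAlmostDisjoint (succ e) l) : HasTransversals (succ e) l := by
  classical
  have he : ℵ₀ ≤ e := hl.trans hle.le
  have hunc : ℵ₀ < succ e := lt_of_le_of_lt he (Order.lt_succ e)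
  apply hasTransversals_of_indexed
  intro X A hA1 hA2
  have hU : #(⋃ b, A b) ≤ succ e := by
    calc #(⋃ b, A b) ≤ Cardinal.sum (fun b => #(A b)) := mk_iUnion_le_sum_mk
      _ = Cardinal.sum (fun _ : (succ e).ord.ToType => succ e) := by
          congr 1
          funext b
          exact hA1 b
      _ = succ e := by
          rw [Cardinal.sum_const', Cardinal.mk_ord_toType, Cardinal.mul_eq_self hunc.le]
  obtain ⟨j⟩ : Nonempty ((⋃ b, A b : Set X) ↪ (succ e).ord.ToType) := by
    rw [← Cardinal.le_def, Cardinal.mk_ord_toType]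
    exact hU
  have hmem : ∀ b x, x ∈ A b → x ∈ ⋃ b, A b := fun b x hx => Set.mem_iUnion.mpr ⟨b, hx⟩
  let A' : (succ e).ord.ToType → Set (succ e).ord.ToType := fun b =>
    Set.range (fun x : A b => j ⟨x.1, hmem b x.1 x.2⟩)
  have hinj : ∀ b, Function.Injective (fun x : A b => j ⟨x.1, hmem b x.1 x.2⟩) := by
    intro b x y hxy
    have h1 := congrArg Subtype.val (j.injective hxy)
    exact Subtype.ext h1
  have hA'1 : ∀ b, #(A' b) = succ e := by
    intro b
    rw [Cardinal.mk_range_eq _ (hinj b), hA1 b]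
  have hA'2 : ∀ a b, a ≠ b → #(A' a ∩ A' b : Set (succ e).ord.ToType) < l := by
    intro a b hab
    refine lt_of_le_of_lt ?_ (hA2 a b hab)
    have h1 : ∀ y : (A' a ∩ A' b : Set (succ e).ord.ToType),
        ∃ x, ∃ h : x ∈ A a ∩ A b, j ⟨x, hmem a x h.1⟩ = y.1 := by
      rintro ⟨y, ⟨x, hx⟩, ⟨x', hx'⟩⟩
      have h2 := congrArg Subtype.val (j.injective (hx.trans hx'.symm))
      have h3 : x.1 = x'.1 := h2
      exact ⟨x.1, ⟨x.2, h3 ▸ x'.2⟩, hx⟩
    choose f hf1 hf2 using h1
    refine Cardinal.mk_le_of_injective (f := fun y => (⟨f y, hf1 y⟩ : (A a ∩ A b : Set X))) ?_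
    intro y z hyz
    have h4 : f y = f z := congrArg Subtype.val hyz
    apply Subtype.ext
    rw [← hf2 y, ← hf2 z]
    simp only [h4]
  obtain ⟨T', hT'⟩ := exists_transversal_of_not_sad gch e l hl hle helim hsad A' hA'1 hA'2
  refine ⟨{x | ∃ h : x ∈ ⋃ b, A b, j ⟨x, h⟩ ∈ T'}, ?_⟩
  intro b
  constructor
  · obtain ⟨y, hy, ⟨x, rfl⟩⟩ := (hT' b).1
    exact ⟨x.1, ⟨hmem b x.1 x.2, hy⟩, x.2⟩
  · refine le_trans ?_ (hT' b).2
    refine Cardinal.mk_le_of_injective
      (f := fun x => (⟨j ⟨x.1, hmem b x.1 x.2.2⟩, ?_, ⟨⟨x.1, x.2.2⟩, rfl⟩⟩ :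
        (T' ∩ A' b : Set (succ e).ord.ToType))) ?_
    · obtain ⟨_, h2⟩ := x.2.1
      exact h2
    · intro x y hxy
      have h1 := congrArg Subtype.val (j.injective (congrArg Subtype.val hxy))
      exact Subtype.ext h1

end Aux

/-- Assume GCH, and let `κ` be an infinite cardinal and `l` any cardinal. Every family of `κ` sets
of power `κ` with degree of disjunction `≤ l` has an `l⁺`-transversal, if and only if it is not the
case that `κ = η⁺` with `ℵ₀ ≤ l < η` and `cof l = cof η`, and that there are a stationary set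
`S ⊆ κ` and sets `C δ ⊆ δ` (`δ ∈ S`) of size `l⁺` any two of which meet in fewer than `l`
points. -/
theorem hasTransversals_iff (gch : GCH.{u}) (κ l : Cardinal.{u}) (hκ : ℵ₀ ≤ κ) :
    HasTransversals κ l ↔
      ¬ ∃ η : Cardinal.{u}, κ = succ η ∧ ℵ₀ ≤ l ∧ l < η ∧ l.ord.cof = η.ord.cof ∧
        StationaryAlmostDisjoint κ l := by
  constructor
  · rintro h ⟨η, rfl, hl, hlη, hcof, hsad⟩
    exact not_hasTransversals_of_sad gch η l hl hlη hcof hsad h
  · intro h
    rcases le_or_gt κ l with hκl | hlκ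
    · -- `κ ≤ l`: take everything
      intro X 𝒜 _ h2 _
      refine ⟨Set.univ, ?_⟩
      intro A hA
      rw [Set.univ_inter, h2 A hA]
      refine ⟨?_, Order.lt_succ_of_le hκl⟩
      rw [← Set.nonempty_coe_sort, ← Cardinal.mk_ne_zero_iff, h2 A hA]
      exact (lt_of_lt_of_le Cardinal.aleph0_pos hκ).ne'
    rcases lt_or_ge l 1 with hl0 | hl1
    · -- `l = 0` is impossible
      have hl0' : l = 0 := by
        have := Cardinal.lt_one_iff.mp hl0
        exact this
      subst hl0'
      apply hasTransversals_of_indexed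
      intro X A _ hA2
      exfalso
      have : Infinite κ.ord.ToType := by
        rw [Cardinal.infinite_iff, Cardinal.mk_ord_toType]
        exact hκ
      obtain ⟨a, b, hab⟩ := exists_pair_ne κ.ord.ToType
      exact absurd (hA2 a b hab) (not_lt.mpr bot_le)
    rcases lt_or_ge l ℵ₀ with hlfin | hl
    · -- `l` finite
      apply hasTransversals_of_count κ l hκ hl1 hlκ
      intro X A hA T hT
      exact lt_of_le_of_lt (count_le A l hA T) (pow_lt_of_finite κ _ l hκ hT hlfin)
    by_cases hlim : IsSuccPrelimit κ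
    · -- `κ` a limit cardinal
      apply hasTransversals_of_count κ l hκ hl1 hlκ
      intro X A hA T hT
      exact lt_of_le_of_lt (count_le A l hA T) (pow_lt_of_limit gch κ _ l hl hT hlκ hlim)
    · -- `κ = e⁺`
      obtain ⟨e, rfl⟩ : ∃ e, succ e = κ := by
        rw [not_isSuccPrelimit_iff] at hlim
        obtain ⟨e, he⟩ := hlim
        exact ⟨e, he.succ_eq⟩
      have hle : l ≤ e := Order.lt_succ_iff.mp hlκ
      rcases eq_or_lt_of_le hle with rfl | hlt
      · exact hasTransversals_succ l hl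
      · have he : ℵ₀ ≤ e := hl.trans hle
        by_cases hcof : l.ord.cof = e.ord.cof
        · have hsad : ¬ StationaryAlmostDisjoint (succ e) l :=
            fun hs => h ⟨e, rfl, hl, hlt, hcof, hs⟩
          exact hasTransversals_of_not_sad gch e l hl hlt
            (isSuccLimit_of_cof e l hl hlt hcof).isSuccPrelimit hsad
        · apply hasTransversals_of_count (succ e) l hκ hl1 hlκ
          intro X A hA T hT
          exact Order.lt_succ_of_le
            (count_le_of_cof_ne gch A e l hl hlt hcof hA T (Order.lt_succ_iff.mp hT))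

end Pool.Agent.Helper75.Trv.Char
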