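import Mathlib
import Pool.Agent.Helper61.TransvNeg

set_option autoImplicit false

/-!
Normal measures on `P_{κ₀}(η⁺)` give stationary almost disjoint families (for problem
`MP_23241f_lc`).
-/

open Cardinal Ordinal Set Order

universe u

namespace Pool.Agent.Helper75.Trv

open Pool.Agent.Helper61

/-- `U` is a `κ₀`-complete, fine, normal ultrafilter on the subsets of `K` of size `< κ₀`. -/
structure IsNormalMeasure {K : Type u} (κ₀ : Cardinal.{u}) (U : Ultrafilter (Set K)) : Prop where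
  small : {P : Set K | #P < κ₀} ∈ U
  complete : ∀ 𝒮 : Set (Set (Set K)), #𝒮 < κ₀ → (∀ A ∈ 𝒮, A ∈ U) → ⋂₀ 𝒮 ∈ U
  fine : ∀ x : K, {P : Set K | x ∈ P} ∈ U
  normal : ∀ f : Set K → K, {P : Set K | f P ∈ P} ∈ U → ∃ x, {P : Set K | f P = x} ∈ U

section Measure

variable {K : Type u} {κ₀ : Cardinal.{u}} {U : Ultrafilter (Set K)}

lemma IsNormalMeasure.forall_mem (hU : IsNormalMeasure κ₀ U) (Y : K → Set K → Prop)
    (h : ∀ β, ∀ᶠ P in U, Y β P) : ∀ᶠ P in U, ∀ β ∈ P, Y β P := by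
  classical
  by_contra hcon
  rw [← Ultrafilter.eventually_not] at hcon
  have h1 : ∀ᶠ P in U, ∃ β ∈ P, ¬ Y β P := by
    filter_upwards [hcon] with P hP
    push Not at hP
    exact hP
  obtain ⟨P₀, β₀, -, -⟩ := h1.exists
  let f : Set K → K := fun P => if h : ∃ β ∈ P, ¬ Y β P then h.choose else β₀
  have hf : ∀ P, (∃ β ∈ P, ¬ Y β P) → f P ∈ P ∧ ¬ Y (f P) P := by
    intro P hP
    have h2 : f P = hP.choose := dif_pos hP
    rw [h2]
    exact hP.choose_spec
  obtain ⟨x, hx⟩ := hU.normal f (by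
    filter_upwards [h1] with P hP
    exact (hf P hP).1)
  obtain ⟨P, hP1, hP2, hP3⟩ := (h1.and ((h x).and hx)).exists
  have h3 := (hf P hP1).2
  have h4 : f P = x := hP3
  rw [h4] at h3
  exact h3 hP2

lemma IsNormalMeasure.inj (hU : IsNormalMeasure κ₀ U) (A B : Set K) (h : #B < #A) :
    ∀ᶠ P in U, #(P ∩ B : Set K) < #(P ∩ A : Set K) := by
  classical
  by_contra hcon
  rw [← Ultrafilter.eventually_not] at hcon
  have h1 : ∀ᶠ P in U, Nonempty ((P ∩ A : Set K) ↪ (P ∩ B : Set K)) := by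
    filter_upwards [hcon] with P hP
    rw [← Cardinal.le_def]
    exact not_lt.mp hP
  let r : ∀ P : Set K, Nonempty ((P ∩ A : Set K) ↪ (P ∩ B : Set K)) →
      ((P ∩ A : Set K) ↪ (P ∩ B : Set K)) := fun P h => h.some
  have h2 : ∀ x : A, ∃ y : K, ∀ᶠ P in U, ∃ (hP : Nonempty ((P ∩ A : Set K) ↪ (P ∩ B : Set K)))
      (hx : x.1 ∈ P), ((r P hP ⟨x.1, hx, x.2⟩ : (P ∩ B : Set K)) : K) = y := by
    intro x
    let f : Set K → K := fun P =>
      if h : ∃ (_ : Nonempty ((P ∩ A : Set K) ↪ (P ∩ B : Set K))), x.1 ∈ P then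
        ((r P h.choose ⟨x.1, h.choose_spec, x.2⟩ : (P ∩ B : Set K)) : K) else x.1
    have hf : ∀ (P : Set K) (hP : Nonempty ((P ∩ A : Set K) ↪ (P ∩ B : Set K))) (hx : x.1 ∈ P),
        f P = ((r P hP ⟨x.1, hx, x.2⟩ : (P ∩ B : Set K)) : K) := by
      intro P hP hx
      exact dif_pos ⟨hP, hx⟩
    obtain ⟨y, hy⟩ := hU.normal f (by
      filter_upwards [h1, hU.fine x.1] with P hP hx
      show f P ∈ P
      rw [hf P hP hx]
      exact (r P hP ⟨x.1, hx, x.2⟩).2.1)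
    refine ⟨y, ?_⟩
    filter_upwards [h1, hU.fine x.1, hy] with P hP hx hy'
    exact ⟨hP, hx, (hf P hP hx).symm.trans hy'⟩
  choose y hy using h2
  have hyB : ∀ x, y x ∈ B := by
    intro x
    obtain ⟨P, hP, hx, h3⟩ := (hy x).exists
    rw [← h3]
    exact (r P hP ⟨x.1, hx, x.2⟩).2.2
  have hinj : Function.Injective (fun x : A => (⟨y x, hyB x⟩ : B)) := by
    intro x x' hxx
    have h3 : y x = y x' := congrArg Subtype.val hxx
    obtain ⟨P, ⟨hP, hx, h4⟩, ⟨hP', hx', h5⟩⟩ := ((hy x).and (hy x')).exists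
    have h6 : r P hP ⟨x.1, hx, x.2⟩ = r P hP ⟨x'.1, hx', x'.2⟩ :=
      Subtype.ext (h4.trans (h3.trans h5.symm))
    have h7 := congrArg Subtype.val ((r P hP).injective h6)
    exact Subtype.ext h7
  exact absurd h (not_lt.mpr (Cardinal.mk_le_of_injective hinj))

lemma IsNormalMeasure.forall_index (hU : IsNormalMeasure κ₀ U) {ι : Type u} (hι : #ι < κ₀)
    (Y : ι → Set K → Prop) (h : ∀ i, ∀ᶠ P in U, Y i P) : ∀ᶠ P in U, ∀ i, Y i P := by
  have h1 := hU.complete (Set.range (fun i => {P | Y i P}))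
    (lt_of_le_of_lt Cardinal.mk_range_le hι) (by
      rintro A ⟨i, rfl⟩
      exact h i)
  filter_upwards [h1] with P hP i
  exact hP _ ⟨i, rfl⟩

end Measure

/-- If all initial segments of an injective image `ψ : X → H` are smaller than `#X`, then the
cofinality of `#X` is the cofinality of `H`. -/
lemma cof_eq_of_segments {e : Cardinal.{u}} (X : Type u)
    (ψ : X → e.ord.ToType) (hψ : Function.Injective ψ)
    (h : ∀ i : e.ord.ToType, ∃ j, i ≤ j ∧ #{x | ψ x < j} < #X) : (#X).ord.cof = e.ord.cof := by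
  let R : Set e.ord.ToType := Set.range ψ
  have hRc : #R = #X := Cardinal.mk_range_eq ψ hψ
  have hseg : ∀ i : e.ord.ToType, #(R ∩ Iio i : Set e.ord.ToType) < #X := by
    intro i
    obtain ⟨j, hij, hj⟩ := h i
    refine lt_of_le_of_lt ?_ hj
    have h3 : ∀ z : (R ∩ Iio i : Set e.ord.ToType), ∃ x, ψ x = z.1 := fun z => z.2.1
    choose g hg using h3
    refine Cardinal.mk_le_of_injective
      (f := fun z => (⟨g z, by
        show ψ (g z) < j
        rw [hg z]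
        exact lt_of_lt_of_le z.2.2 hij⟩ : {x | ψ x < j})) ?_
    intro z w hzw
    have h4 : g z = g w := congrArg Subtype.val hzw
    apply Subtype.ext
    rw [← hg z, ← hg w, h4]
  have hRcof : IsCofinal R := by
    by_contra hR
    rw [not_isCofinal_iff] at hR
    obtain ⟨x, hx⟩ := hR
    have h5 : R ∩ Iio x = R := by
      rw [Set.inter_eq_left]
      intro z hz
      exact hx z hz
    have h6 := hseg x
    rw [h5, hRc] at h6
    exact lt_irrefl _ h6
  have h7 : Order.cof R = Order.cof e.ord.ToType := Order.cof_eq_of_isCofinal hRcof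
  have h8 : Ordinal.type (α := R) (· < ·) = (#X).ord := by
    rw [← hRc]
    apply type_eq_of_initial
    intro a
    rw [hRc]
    refine lt_of_le_of_lt ?_ (hseg a.1)
    refine Cardinal.mk_le_of_injective
      (f := fun c : Iio a => (⟨c.1.1, c.1.2, c.2⟩ : (R ∩ Iio a.1 : Set e.ord.ToType))) ?_
    intro c d hcd
    have h9 := congrArg Subtype.val hcd
    exact Subtype.ext (Subtype.ext h9)
  rw [← h8, Ordinal.cof_type, h7, Ordinal.cof_toType]


/-- Under GCH, the subsets of `K` of size `< κ₀` can be enumerated by `K`. -/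
lemma exists_enum (gch : GCH.{u}) (e κ₀ : Cardinal.{u}) (he : ℵ₀ ≤ e) (h0 : 0 < κ₀)
    (hκ : κ₀ ≤ e) :
    ∃ h : (succ e).ord.ToType → Set (succ e).ord.ToType, (∀ α, #(h α) < κ₀) ∧
      ∀ Y : Set (succ e).ord.ToType, #Y < κ₀ → ∃ α, h α = Y := by
  classical
  let K := (succ e).ord.ToType
  have hK : #K = succ e := Cardinal.mk_ord_toType _
  have h1 : #{Y : Set K // #Y < κ₀} ≤ #K := by
    calc #{Y : Set K // #Y < κ₀} ≤ #{Y : Set K // #Y ≤ κ₀} :=
          Cardinal.mk_le_of_injective (f := fun Y => ⟨Y.1, Y.2.le⟩)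
            (fun Y Z h => by
              have h' : Y.1 = Z.1 := congrArg (fun t : {Y : Set K // #Y ≤ κ₀} => t.1) h
              exact Subtype.ext h')
      _ ≤ max #K ℵ₀ ^ κ₀ := Cardinal.mk_bounded_set_le K κ₀
      _ = succ e ^ κ₀ := by
          rw [hK, max_eq_left (he.trans (Order.le_succ e))]
      _ = (2 ^ e) ^ κ₀ := by rw [gch e he]
      _ = 2 ^ (e * κ₀) := by rw [Cardinal.power_mul]
      _ = 2 ^ e := by
          rw [Cardinal.mul_eq_left he hκ h0.ne']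
      _ = #K := by rw [gch e he, hK]
  have : Nonempty {Y : Set K // #Y < κ₀} := ⟨⟨∅, by simpa using h0⟩⟩
  obtain ⟨ι⟩ : Nonempty ({Y : Set K // #Y < κ₀} ↪ K) := h1
  refine ⟨fun α => (Function.invFun ι α).1, fun α => (Function.invFun ι α).2, ?_⟩
  intro Y hY
  refine ⟨ι ⟨Y, hY⟩, ?_⟩
  show (Function.invFun ι (ι ⟨Y, hY⟩)).1 = Y
  rw [Function.leftInverse_invFun ι.injective]

/-- A normal measure on `P_{κ₀}(e⁺)`, where `cof e < κ₀ < e`, gives a stationary almost disjoint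
family at `e⁺`, for some `l < κ₀` with `cof l = cof e`. -/
theorem sad_of_normalMeasure (gch : GCH.{u}) (e κ₀ : Cardinal.{u}) (h0 : ℵ₀ < κ₀) (hκe : κ₀ < e)
    (hcof : e.ord.cof < κ₀) (U : Ultrafilter (Set (succ e).ord.ToType))
    (hU : IsNormalMeasure κ₀ U) :
    ∃ l : Cardinal.{u}, ℵ₀ ≤ l ∧ l < κ₀ ∧ l.ord.cof = e.ord.cof ∧
      StationaryAlmostDisjoint (succ e) l := by
  classical
  have he : ℵ₀ ≤ e := h0.le.trans hκe.le
  have hreg : (succ e).IsRegular := Cardinal.isRegular_succ he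
  have hunc : ℵ₀ < succ e := lt_of_le_of_lt he (Order.lt_succ e)
  let K := (succ e).ord.ToType
  let H := e.ord.ToType
  have hK : #K = succ e := Cardinal.mk_ord_toType _
  have hH : #H = e := Cardinal.mk_ord_toType _
  have hseg : ∀ x : K, #(Iio x) ≤ e := fun x => Order.lt_succ_iff.mp (mk_Iio_lt' x)
  have hcofK : Order.cof K ≠ ℵ₀ := by
    rw [cof_toType_eq hreg]
    exact hunc.ne'
  -- a subset of size `e`
  obtain ⟨N, hN⟩ : ∃ N : Set K, #N = e := by
    have h1 : e ≤ #K := by rw [hK]; exact Order.le_succ e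
    obtain ⟨N, hN⟩ := Cardinal.le_mk_iff_exists_set.mp h1
    exact ⟨N, hN⟩
  obtain ⟨φ⟩ : Nonempty (N ≃ H) := by
    rw [← Cardinal.eq, hN, hH]
  obtain ⟨s, hs, hsc⟩ := Order.exists_cof_eq H
  have hsκ : #s < κ₀ := by
    rw [hsc, Ordinal.cof_toType]
    exact hcof
  let Ni : H → Set K := fun i => {x | ∃ h : x ∈ N, φ ⟨x, h⟩ < i}
  have hNi : ∀ i, #(Ni i) < e := by
    intro i
    refine lt_of_le_of_lt ?_ (mk_Iio_lt' i)
    refine Cardinal.mk_le_of_injective
      (f := fun x : Ni i => (⟨φ ⟨x.1, x.2.choose⟩, x.2.choose_spec⟩ : Iio i)) ?_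
    intro x y hxy
    have h1 : φ ⟨x.1, x.2.choose⟩ = φ ⟨y.1, y.2.choose⟩ := congrArg Subtype.val hxy
    have h2 := congrArg Subtype.val (φ.injective h1)
    exact Subtype.ext h2
  -- embeddings of the initial segments
  have hg : ∀ β : K, ∃ g : K → K, (∀ x < β, g x ∈ N) ∧ ∀ x < β, ∀ y < β, g x = g y → x = y := by
    intro β
    obtain ⟨ι⟩ : Nonempty (Iio β ↪ N) := by
      rw [← Cardinal.le_def, hN]
      exact hseg β
    refine ⟨fun x => if h : x < β then (ι ⟨x, h⟩).1 else x, ?_, ?_⟩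
    · intro x hx
      simp only [dif_pos hx]
      exact (ι ⟨x, hx⟩).2
    · intro x hx y hy hxy
      simp only [dif_pos hx, dif_pos hy] at hxy
      have h2 := congrArg Subtype.val (ι.injective (Subtype.ext hxy))
      exact h2
  choose g hgN hginj using hg
  obtain ⟨h, hh1, hh2⟩ := exists_enum gch e κ₀ he (Cardinal.aleph0_pos.trans h0) hκe.le
  let Kb : K → H → Set K := fun β i => {α | α < β ∧ g β α ∈ Ni i}
  let Hb : K → H → Set K := fun β i => ⋃ α : Kb β i, h α.1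
  have hHb : ∀ β i, #(Hb β i) < e := by
    intro β i
    have h1 : #(Kb β i) ≤ #(Ni i) := by
      refine Cardinal.mk_le_of_injective (f := fun α => (⟨g β α.1, α.2.2⟩ : Ni i)) ?_
      intro x y hxy
      exact Subtype.ext (hginj β x.1 x.2.1 y.1 y.2.1 (congrArg Subtype.val hxy))
    calc #(Hb β i) ≤ Cardinal.sum (fun α : Kb β i => #(h α.1)) := mk_iUnion_le_sum_mk
      _ ≤ Cardinal.sum (fun _ : Kb β i => κ₀) :=
          Cardinal.sum_le_sum _ _ (fun α => (hh1 α.1).le)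
      _ = #(Kb β i) * κ₀ := by rw [Cardinal.sum_const']
      _ < e := Cardinal.mul_lt_of_lt he (lt_of_le_of_lt h1 (hNi i)) hκe
  -- no maximum
  have hsc : ∀ x : K, ∃ y, x < y := fun x => exists_gt_toType hunc.le x
  choose sc hscl using hsc
  -- good sets
  let Good : Set K → Prop := fun P => #P < κ₀ ∧ (∀ x ∈ P, sc x ∈ P) ∧
    (∀ β ∈ P, ∀ x ∈ P, g β x ∈ P) ∧ #(P ∩ N : Set K) < #P ∧ ℵ₀ ≤ #(P ∩ N : Set K) ∧
    (∀ i : s, #(P ∩ Ni i.1 : Set K) < #(P ∩ N : Set K)) ∧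
    ∀ β ∈ P, ∀ i : s, #(P ∩ Hb β i.1 : Set K) < #(P ∩ N : Set K)
  have hGood : ∀ᶠ P in U, Good P := by
    have e1 : ∀ᶠ P : Set K in U, #P < κ₀ := hU.small
    have e2 : ∀ᶠ P : Set K in U, ∀ x ∈ P, sc x ∈ P := hU.forall_mem _ (fun x => hU.fine (sc x))
    have e3 : ∀ᶠ P : Set K in U, ∀ β ∈ P, ∀ x ∈ P, g β x ∈ P :=
      hU.forall_mem _ (fun β => hU.forall_mem _ (fun x => hU.fine (g β x)))
    have e4 : ∀ᶠ P in U, #(P ∩ N : Set K) < #P := by
      have := hU.inj Set.univ N (by rw [hN, Cardinal.mk_univ, hK]; exact Order.lt_succ e)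
      simpa only [Set.inter_univ] using this
    have e5 : ∀ᶠ P in U, ℵ₀ ≤ #(P ∩ N : Set K) := by
      have : Infinite N := Cardinal.infinite_iff.mpr (by rw [hN]; exact he)
      obtain ⟨v⟩ : Nonempty (ℕ ↪ N) := ⟨Infinite.natEmbedding N⟩
      have hω : #(ULift.{u, 0} ℕ) < κ₀ := by
        rw [Cardinal.mk_uLift, Cardinal.mk_nat, Cardinal.lift_aleph0]
        exact h0
      have h1 : ∀ᶠ P : Set K in U, ∀ n : ULift.{u, 0} ℕ, (v n.down).1 ∈ P :=
        hU.forall_index hω _ (fun n => hU.fine _)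
      filter_upwards [h1] with P hP
      have h2 : #(ULift.{u, 0} ℕ) ≤ #(P ∩ N : Set K) := by
        refine Cardinal.mk_le_of_injective
          (f := fun n : ULift.{u, 0} ℕ => (⟨(v n.down).1, hP n, (v n.down).2⟩ : (P ∩ N : Set K))) ?_
        intro m n hmn
        have h3 : (v m.down).1 = (v n.down).1 := congrArg (fun t : (P ∩ N : Set K) => t.1) hmn
        have h4 := v.injective (Subtype.ext h3)
        exact ULift.ext _ _ h4
      rw [Cardinal.mk_uLift, Cardinal.mk_nat, Cardinal.lift_aleph0] at h2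
      exact h2
    have e6 : ∀ᶠ P in U, ∀ i : s, #(P ∩ Ni i.1 : Set K) < #(P ∩ N : Set K) :=
      hU.forall_index hsκ _ (fun i => hU.inj N (Ni i.1) (by rw [hN]; exact hNi i.1))
    have e7 : ∀ᶠ P in U, ∀ β ∈ P, ∀ i : s, #(P ∩ Hb β i.1 : Set K) < #(P ∩ N : Set K) :=
      hU.forall_mem _ (fun β => hU.forall_index hsκ _
        (fun i => hU.inj N (Hb β i.1) (by rw [hN]; exact hHb β i.1)))
    filter_upwards [e1, e2, e3, e4, e5, e6, e7] with P h1 h2 h3 h4 h5 h6 h7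
    exact ⟨h1, h2, h3, h4, h5, h6, h7⟩
  -- the size of a good set
  have hsize : ∀ P, Good P → #P = succ #(P ∩ N : Set K) := by
    rintro P ⟨_, _, h3, h4, _, _, _⟩
    apply le_antisymm
    · apply mk_le_of_initial
      intro a
      rw [Order.lt_succ_iff]
      refine Cardinal.mk_le_of_injective
        (f := fun x : Iio a => (⟨g a.1 x.1.1, h3 _ a.2 _ x.1.2, hgN _ _ x.2⟩ :
          (P ∩ N : Set K))) ?_
      intro x y hxy
      exact Subtype.ext (Subtype.ext (hginj a.1 x.1.1 x.2 y.1.1 y.2 (congrArg Subtype.val hxy)))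
    · exact Order.succ_le_of_lt h4
  -- its cofinality
  have hcofP : ∀ P, Good P → (#(P ∩ N : Set K)).ord.cof = e.ord.cof := by
    rintro P ⟨_, _, _, _, _, h6, _⟩
    apply cof_eq_of_segments (P ∩ N : Set K) (fun x => φ ⟨x.1, x.2.2⟩)
    · intro x y hxy
      have h1 := congrArg Subtype.val (φ.injective hxy)
      exact Subtype.ext h1
    · intro i
      obtain ⟨j, hj, hij⟩ := hs i
      refine ⟨j, hij, lt_of_le_of_lt ?_ (h6 ⟨j, hj⟩)⟩
      refine Cardinal.mk_le_of_injective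
        (f := fun x => (⟨x.1.1, x.1.2.1, ⟨x.1.2.2, x.2⟩⟩ : (P ∩ Ni j : Set K))) ?_
      intro x y hxy
      have hxy' : x.1.1 = y.1.1 := congrArg (fun t : (P ∩ Ni j : Set K) => t.1) hxy
      exact Subtype.ext (Subtype.ext hxy')
  -- the stationary sets
  let Sl : Cardinal.{u} → Set K := fun l =>
    {δ | ∃ P, Good P ∧ #(P ∩ N : Set K) = l ∧ (∀ x ∈ P, x < δ) ∧ ∀ y < δ, ∃ x ∈ P, y < x}
  have hstat : IsStationary (⋃ j : κ₀.ord.ToType, Sl #(Iio j)) := by
    intro t ht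
    have hc : ∀ x : K, ∃ y ∈ t, x < y := by
      intro x
      obtain ⟨y, hy, hxy⟩ := ht.isCofinal (sc x)
      exact ⟨y, hy, lt_of_lt_of_le (hscl x) hxy⟩
    choose c hct hcl using hc
    have hx0 : Nonempty K := by
      rw [← Cardinal.mk_ne_zero_iff, hK]
      exact (lt_of_lt_of_le Cardinal.aleph0_pos hunc.le).ne'
    have e1 : ∀ᶠ P : Set K in U, ∀ x ∈ P, c x ∈ P := hU.forall_mem _ (fun x => hU.fine (c x))
    obtain ⟨P, hP, hPc, hPx⟩ := (hGood.and (e1.and (hU.fine hx0.some))).exists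
    have hPx' : hx0.some ∈ P := hPx
    obtain ⟨b, hb⟩ := exists_bound hreg P (hP.1.trans (hκe.trans (Order.lt_succ e)))
    let V : Set K := upperBounds P
    have hV : V.Nonempty := ⟨b, fun x hx => (hb x hx).le⟩
    let δ := WellFounded.min (wellFounded_lt (α := K)) V hV
    have hδV : δ ∈ V := WellFounded.min_mem _ V hV
    have hδmin : ∀ y < δ, ∃ x ∈ P, y < x := by
      intro y hy
      by_contra hcon
      push Not at hcon
      exact WellFounded.not_lt_min (wellFounded_lt (α := K)) V (x := y) hcon hy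
    have hδlt : ∀ x ∈ P, x < δ := by
      intro x hx
      exact lt_of_lt_of_le (hscl x) (hδV (hP.2.1 x hx))
    refine ⟨δ, ?_, ?_⟩
    · have hl : #(P ∩ N : Set K) < κ₀ :=
        lt_of_le_of_lt (Cardinal.mk_le_mk_of_subset Set.inter_subset_left) hP.1
      have hl' : (#(P ∩ N : Set K)).ord < Ordinal.type (α := κ₀.ord.ToType) (· < ·) := by
        rw [Ordinal.type_toType]
        exact Cardinal.ord_lt_ord.mpr hl
      refine Set.mem_iUnion.mpr ⟨Ordinal.enum (α := κ₀.ord.ToType) (· < ·) ⟨_, hl'⟩, P, hP, ?_,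
        hδlt, hδmin⟩
      have h3 : (Ordinal.typein (α := κ₀.ord.ToType) (· < ·)
          (Ordinal.enum (α := κ₀.ord.ToType) (· < ·) ⟨_, hl'⟩)).card = #(P ∩ N : Set K) := by
        rw [Ordinal.typein_enum, Cardinal.card_ord]
      rw [Ordinal.card_typein] at h3
      exact h3.symm
    · apply ht.isLUB_mem (t := P ∩ t) Set.inter_subset_right
        ⟨c hx0.some, hPc _ hPx', hct _⟩
      refine ⟨fun x hx => (hδlt x hx.1).le, ?_⟩
      intro b hb
      by_contra hcon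
      push Not at hcon
      obtain ⟨x, hx, hbx⟩ := hδmin b hcon
      exact absurd (hb ⟨hPc x hx, hct x⟩) (not_le.mpr (hbx.trans (hcl x)))
  rw [isStationary_iUnion_iff hcofK (by
    rw [cof_toType_eq hreg, Cardinal.lift_id, Cardinal.lift_id, Cardinal.mk_ord_toType]
    exact hκe.trans (Order.lt_succ e))] at hstat
  obtain ⟨j, hj⟩ := hstat
  set l : Cardinal.{u} := #(Iio j) with hl
  have hlκ : l < κ₀ := mk_Iio_lt' j
  have hprop : ∀ δ : K, ∃ P : Set K, δ ∈ Sl l →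
      Good P ∧ #(P ∩ N : Set K) = l ∧ (∀ x ∈ P, x < δ) ∧ ∀ y < δ, ∃ x ∈ P, y < x := by
    intro δ
    by_cases hδ : δ ∈ Sl l
    · obtain ⟨P, hP⟩ := hδ
      exact ⟨P, fun _ => hP⟩
    · exact ⟨∅, fun h => absurd h hδ⟩
  choose C hC using hprop
  have hidx : ∀ δ : K, ∃ α : K, δ ∈ Sl l → h α = C δ := by
    intro δ
    by_cases hδ : δ ∈ Sl l
    · obtain ⟨α, hα⟩ := hh2 (C δ) (hC δ hδ).1.1
      exact ⟨α, fun _ => hα⟩
    · exact ⟨δ, fun h => absurd h hδ⟩
  choose idx hidx using hidx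
  obtain ⟨δ₀, hδ₀⟩ := hj.nonempty
  obtain ⟨hG₀, hl₀, -, -⟩ := hC δ₀ hδ₀
  refine ⟨l, ?_, hlκ, ?_, ?_⟩
  · rw [← hl₀]
    exact hG₀.2.2.2.2.1
  · rw [← hl₀]
    exact hcofP _ hG₀
  have hE := isClub_closure hreg hunc idx
  refine ⟨Sl l ∩ {x | ∀ z < x, idx z < x}, C, ?_, ?_, ?_⟩
  · intro t ht
    have h2 := hj (hE.inter hcofK ht)
    rw [Set.inter_assoc]
    exact h2
  · rintro δ ⟨hδ, -⟩
    obtain ⟨h1, h2, h3, -⟩ := hC δ hδ
    refine ⟨h3, ?_⟩
    rw [hsize _ h1, h2]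
  · have key : ∀ δ ∈ Sl l ∩ {x | ∀ z < x, idx z < x}, ∀ ε ∈ Sl l ∩ {x | ∀ z < x, idx z < x},
        δ < ε → #(C δ ∩ C ε : Set K) < l := by
      rintro δ ⟨hδ, -⟩ ε ⟨hε, hε'⟩ hlt
      obtain ⟨h1, h2, -, h4⟩ := hC ε hε
      obtain ⟨β, hβ, hβ'⟩ := h4 _ (hε' δ hlt)
      obtain ⟨i₀, hi₀⟩ := exists_gt_toType he (φ ⟨g β (idx δ), hgN _ _ hβ'⟩)
      obtain ⟨i, hi, hii⟩ := hs i₀
      have h5 : idx δ ∈ Kb β i := ⟨hβ', hgN _ _ hβ', lt_of_lt_of_le hi₀ hii⟩
      have h6 : C δ ⊆ Hb β i := by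
        rw [← hidx δ hδ]
        exact Set.subset_iUnion (fun α : Kb β i => h α.1) ⟨idx δ, h5⟩
      refine lt_of_le_of_lt (Cardinal.mk_le_mk_of_subset ?_)
        (lt_of_lt_of_eq (h1.2.2.2.2.2.2 β hβ ⟨i, hi⟩) h2)
      rintro x ⟨hx1, hx2⟩
      exact ⟨hx2, h6 hx1⟩
    intro δ hδ ε hε hne
    rcases lt_or_gt_of_ne hne with hlt | hlt
    · exact key δ hδ ε hε hlt
    · rw [Set.inter_comm]
      exact key ε hε δ hδ hlt

end Pool.Agent.Helper75.Trv
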